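import Pool.Agent.H.MP_1d2ce7_al.A

namespace Pool.Agent.Results.MP_1d2ce7_al.Yes

open FreeGroup Pool.Agent.H.MP_1d2ce7_al

theorem result (r : ℕ) (hr : 3 ≤ r) :
    ∃ u : FreeGroup (Fin r), ∀ w : FreeGroup (Fin r), IsCyclicallyReduced w.toWord →
      (∃ (φ : MulAut (FreeGroup (Fin r))) (v : FreeGroup (Fin r)), w = φ v ∧
        ∃ a : Fin r, (a, true) ∈ v.toWord ∧ (a, false) ∉ v.toWord) →
      ¬ u.toWord <:+: w.toWord := by
  obtain ⟨L, h1, h2⟩ := allp hr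
  refine ⟨mk L, ?_⟩
  rintro _ hc ⟨φ, v, rfl, a, -, ha⟩ h
  obtain ⟨s, t, g1, g2⟩ := block φ v a ha hc
  rw [tw h1] at h
  exact g2 ((h2 s t g1).trans h)

end Pool.Agent.Results.MP_1d2ce7_al.Yes
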